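import Pool.Agent.W425.SG.Defs
import Pool.Agent.W425.SM.FF

set_option autoImplicit false

namespace Pool.Agent.W425.SG

open MvPolynomial Pool.Agent.H628R4.TZ Pool.Agent.H628R4.TP Pool.Agent.W425.SM Pool.Agent.W425.SL
  MeasureTheory Set Filter Topology

variable {r N : ℕ}

/-- the translation vector with heights -/
noncomputable def yTH (v : Fin r → Fin N → ℕ) (θ : Fin r → ℝ) (T δ ϑ : ℝ) (j : Fin r) : ℝ :=
  -T - δ * ∑ i, (v j i : ℝ) - ϑ * θ j

/-- what is known at a point where the integrand does not vanish -/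
lemma nonvan (ε : ℝ) (hε : 0 < ε) (κ : Fin r → ℕ) (M : ℕ)
    (hκ : ∀ j, κ j ≤ M) (c : Fin r → ℤ) (y : Fin r → ℝ) (q : MvPolynomial (Fin r) ℂ)
    (hne' : DD (pk ε κ) y (q * ∏ j, (if c j < 0 then X j * dm M j else 1)) ≠ 0) :
    (∀ j, 0 ≤ y j) ∧ -(ε * ∑ j, |(c j : ℝ)|) ≤ ∑ j, (c j : ℝ) * y j := by
  have h1 : ∀ j, 0 ≤ y j := by
    intro j
    by_contra h
    exact hne' (DD_neg ε hε κ y j (not_le.1 h) _)
  have h2 : ∀ j, c j < 0 → y j ≤ ε := by
    intro j hj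
    by_contra h
    apply hne'
    have h3 : (X j + C ((κ j : ℕ) : ℂ)) ∣ q * ∏ j, (if c j < 0 then X j * dm M j else 1) := by
      refine Dvd.dvd.mul_left ?_ q
      refine (Xdm_dvd M j (κ j) (hκ j)).trans ?_
      have := Finset.dvd_prod_of_mem
        (fun j => (if c j < 0 then X j * dm M j else 1 : MvPolynomial (Fin r) ℂ)) (Finset.mem_univ j)
      simpa [hj] using this
    obtain ⟨w, hw⟩ := h3
    rw [hw]
    exact DD_tail ε hε κ y j (not_le.1 h) w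
  refine ⟨h1, ?_⟩
  rw [Finset.mul_sum, ← Finset.sum_neg_distrib]
  refine Finset.sum_le_sum fun j _ => ?_
  rcases lt_or_ge (c j) 0 with h | h
  · have h' : (c j : ℝ) < 0 := by exact_mod_cast h
    rw [abs_of_neg h']
    nlinarith [h2 j h]
  · have h' : (0:ℝ) ≤ c j := by exact_mod_cast h
    rw [abs_of_nonneg h']
    nlinarith [h1 j, mul_nonneg h' (h1 j), mul_nonneg hε.le h']

lemma sum_cY (v : Fin r → Fin N → ℕ) (θ : Fin r → ℝ) (T δ ϑ : ℝ) (c : Fin r → ℤ)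
    (x : Fin (N+1) → ℝ) :
    ∑ j, (c j : ℝ) * Y (av v) (yTH v θ T δ ϑ) x j =
      ∑ i : Fin N, (∑ j, (c j : ℝ) * v j i) * x i.succ - (∑ j, (c j : ℝ)) * (x 0 + T) -
      δ * ∑ i : Fin N, (∑ j, (c j : ℝ) * v j i) - ϑ * ∑ j, (c j : ℝ) * θ j := by
  have : ∀ j, (c j : ℝ) * Y (av v) (yTH v θ T δ ϑ) x j =
      ∑ i, (c j : ℝ) * v j i * x i.succ - (c j : ℝ) * (x 0 + T) -
      δ * ∑ i, (c j : ℝ) * v j i - ϑ * ((c j : ℝ) * θ j) := by
    intro j
    rw [Y_av', yTH, ← Finset.mul_sum]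
    simp only [mul_assoc]
    rw [← Finset.mul_sum]
    ring
  simp only [this]
  rw [Finset.sum_sub_distrib, Finset.sum_sub_distrib, Finset.sum_sub_distrib, ← Finset.sum_mul,
    ← Finset.mul_sum, ← Finset.mul_sum, Finset.sum_comm, Finset.sum_comm (s := Finset.univ (α := Fin r))
      (f := fun j i => (c j : ℝ) * (v j i : ℝ))]
  congr 3
  exact Finset.sum_congr rfl fun i _ => by rw [Finset.sum_mul]

/-- setup of the proofs of the vanishing lemmas -/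
lemma HH_zero_of (v : Fin r → Fin N → ℕ) (θ : Fin r → ℝ) (ε : ℝ) (hε : 0 < ε) (κ : Fin r → ℕ)
    (M : ℕ) (hκ : ∀ j, κ j ≤ M) (s T δ ϑ : ℝ) (c : Fin r → ℤ)
    (S : Finset (Fin N)) (q : MvPolynomial (Fin r) ℂ)
    (h : ∀ x : Fin (N+1) → ℝ, (∀ i, 0 ≤ x i) → (∀ i ∈ S, x i.succ = 0) →
      ∑ i : Fin N, (∑ j, (c j : ℝ) * v j i) * x i.succ - (∑ j, (c j : ℝ)) * (x 0 + T) -
      δ * ∑ i : Fin N, (∑ j, (c j : ℝ) * v j i) - ϑ * ∑ j, (c j : ℝ) * θ j <
        -(ε * ∑ j, |(c j : ℝ)|)) :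
    HH v ε κ s (yTH v θ T δ ϑ) S (q * ∏ j, (if c j < 0 then X j * dm M j else 1)) = 0 := by
  classical
  unfold HH
  refine integral_eq_zero_of_ae ?_
  filter_upwards [ae_ms (S.map (Fin.succEmb N))] with x hx
  obtain ⟨hx0, hxS⟩ := hx
  by_contra hne
  have hne' : DD (pk ε κ) (Y (av v) (yTH v θ T δ ϑ) x)
      (q * ∏ j, (if c j < 0 then X j * dm M j else 1)) ≠ 0 := by
    intro h
    apply hne
    simp only [Pi.zero_apply]
    rw [h, mul_zero]
  obtain ⟨h1, h3⟩ := nonvan ε hε κ M hκ c _ q hne'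
  have h4 := h x (fun i => hx0 i) (fun i hi => hxS i.succ (by simp [hi]))
  rw [sum_cY] at h3
  linarith

lemma killed1 (v : Fin r → Fin N → ℕ) (θ : Fin r → ℝ) (ε : ℝ) (hε : 0 < ε) (κ : Fin r → ℕ)
    (M : ℕ) (hκ : ∀ j, κ j ≤ M) (s T δ ϑ : ℝ) (hϑ : 0 < ϑ) (c : Fin r → ℤ) (hc : ∑ j, c j = 1)
    (hT : (ε + |δ| + ϑ) * (∑ j, |(c j : ℝ)| + ∑ i, |∑ j, (c j : ℝ) * (v j i : ℝ)| +
      |∑ j, (c j : ℝ) * θ j|) < T)
    (S : Finset (Fin N)) (q : MvPolynomial (Fin r) ℂ) (hS : Bc v c ⊆ S) :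
    HH v ε κ s (yTH v θ T δ ϑ) S (q * ∏ j, (if c j < 0 then X j * dm M j else 1)) = 0 := by
  refine HH_zero_of v θ ε hε κ M hκ s T δ ϑ c S q fun x hx0 hxS => ?_
  have hcR : ∑ j, (c j : ℝ) = 1 := by exact_mod_cast hc
  rw [hcR, one_mul]
  have h5 : ∑ i : Fin N, (∑ j, (c j : ℝ) * v j i) * x i.succ ≤ 0 := by
    refine Finset.sum_nonpos fun i _ => ?_
    rcases lt_or_ge 0 (∑ j, c j * (v j i : ℤ)) with h | h
    · have hiS : i ∈ S := hS (by simp [Bc, h])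
      rw [hxS i hiS, mul_zero]
    · have h' : (∑ j, (c j : ℝ) * v j i) ≤ 0 := by exact_mod_cast h
      exact mul_nonpos_of_nonpos_of_nonneg h' (hx0 _)
  have h6 := hx0 0
  have h7 : -(δ * ∑ i : Fin N, (∑ j, (c j : ℝ) * v j i)) ≤
      |δ| * ∑ i, |∑ j, (c j : ℝ) * (v j i : ℝ)| := by
    refine (neg_le_abs _).trans ?_
    rw [abs_mul]
    exact mul_le_mul_of_nonneg_left (Finset.abs_sum_le_sum_abs _ _) (abs_nonneg _)
  have h7' : -(ϑ * ∑ j, (c j : ℝ) * θ j) ≤ ϑ * |∑ j, (c j : ℝ) * θ j| := by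
    refine (neg_le_abs _).trans ?_
    rw [abs_mul, abs_of_pos hϑ]
  have h8 : 0 ≤ ε * ∑ i, |∑ j, (c j : ℝ) * (v j i : ℝ)| := by positivity
  have h9 : 0 ≤ |δ| * ∑ j, |(c j : ℝ)| := by positivity
  have h10 : 0 ≤ ε * |∑ j, (c j : ℝ) * θ j| := by positivity
  have h11 : 0 ≤ |δ| * |∑ j, (c j : ℝ) * θ j| := by positivity
  have h12 : 0 ≤ ϑ * ∑ j, |(c j : ℝ)| := by positivity
  have h13 : 0 ≤ ϑ * ∑ i, |∑ j, (c j : ℝ) * (v j i : ℝ)| := by positivity
  nlinarith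

lemma killedb (v : Fin r → Fin N → ℕ) (θ : Fin r → ℝ) (ε : ℝ) (hε : 0 < ε) (κ : Fin r → ℕ)
    (M : ℕ) (hκ : ∀ j, κ j ≤ M) (s T δ ϑ : ℝ) (hϑ : 0 < ϑ) (c : Fin r → ℤ) (hc : ∑ j, c j = 0)
    (hc1 : ∀ i, ∑ j, c j * (v j i : ℤ) = 0)
    (hT : ε * (∑ j, |(c j : ℝ)|) < ϑ * ∑ j, (c j : ℝ) * θ j)
    (S : Finset (Fin N)) (q : MvPolynomial (Fin r) ℂ) :
    HH v ε κ s (yTH v θ T δ ϑ) S (q * ∏ j, (if c j < 0 then X j * dm M j else 1)) = 0 := by
  refine HH_zero_of v θ ε hε κ M hκ s T δ ϑ c S q fun x hx0 hxS => ?_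
  have hcR : ∑ j, (c j : ℝ) = 0 := by exact_mod_cast hc
  have h1 : ∀ i, (∑ j, (c j : ℝ) * v j i) = 0 := fun i => by exact_mod_cast hc1 i
  simp only [h1, hcR]
  simp
  exact hT

lemma killeda (v : Fin r → Fin N → ℕ) (θ : Fin r → ℝ) (ε : ℝ) (hε : 0 < ε) (κ : Fin r → ℕ)
    (M : ℕ) (hκ : ∀ j, κ j ≤ M) (s T δ ϑ : ℝ) (hϑ : 0 < ϑ) (c : Fin r → ℤ) (hc : ∑ j, c j = 0)
    (hc1 : ∀ i, ∑ j, c j * (v j i : ℤ) ≤ 0) (hc2 : ∃ i, ∑ j, c j * (v j i : ℤ) < 0)
    (hT : (ε + ϑ) * (∑ j, |(c j : ℝ)| + |∑ j, (c j : ℝ) * θ j|) < -δ)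
    (S : Finset (Fin N)) (q : MvPolynomial (Fin r) ℂ) :
    HH v ε κ s (yTH v θ T δ ϑ) S (q * ∏ j, (if c j < 0 then X j * dm M j else 1)) = 0 := by
  refine HH_zero_of v θ ε hε κ M hκ s T δ ϑ c S q fun x hx0 hxS => ?_
  have hcR : ∑ j, (c j : ℝ) = 0 := by exact_mod_cast hc
  rw [hcR, zero_mul, sub_zero]
  have h5 : ∑ i : Fin N, (∑ j, (c j : ℝ) * v j i) * x i.succ ≤ 0 := by
    refine Finset.sum_nonpos fun i _ => ?_
    have h' : (∑ j, (c j : ℝ) * v j i) ≤ 0 := by exact_mod_cast hc1 i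
    exact mul_nonpos_of_nonpos_of_nonneg h' (hx0 _)
  have h6 : ∑ i : Fin N, (∑ j, (c j : ℝ) * v j i) ≤ -1 := by
    have h7 : ∑ i : Fin N, (∑ j, c j * (v j i : ℤ)) < 0 := by
      obtain ⟨i, hi⟩ := hc2
      exact Finset.sum_neg' (fun i _ => hc1 i) ⟨i, Finset.mem_univ i, hi⟩
    have h8 : ∑ i : Fin N, (∑ j, c j * (v j i : ℤ)) ≤ -1 := by omega
    exact_mod_cast h8
  have h7' : -(ϑ * ∑ j, (c j : ℝ) * θ j) ≤ ϑ * |∑ j, (c j : ℝ) * θ j| := by
    refine (neg_le_abs _).trans ?_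
    rw [abs_mul, abs_of_pos hϑ]
  have h10 : 0 ≤ ε * |∑ j, (c j : ℝ) * θ j| := by positivity
  have h12 : 0 ≤ ϑ * ∑ j, |(c j : ℝ)| := by positivity
  have h13 : 0 < -δ := lt_of_le_of_lt (by positivity) hT
  nlinarith

/-- **The functional kills `k * p(∑ X_j)`, version with heights.** -/
theorem killsT (v : Fin r → Fin N → ℕ) (θ : Fin r → ℝ) (loc : Prop) (p : Polynomial ℂ)
    (hR : RelT v θ loc p)
    (k : MvPolynomial (Fin r) ℂ)
    (hk : ∀ (κ : Fin r → ℕ) (i : Fin N), ∑ j, κ j * v j i = 1 →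
      k ∈ Ideal.span {p : MvPolynomial (Fin r) ℂ | ∃ j, 0 < v j i ∧ p = X j + C ((κ j : ℕ) : ℂ)}) :
    ∃ K0 s0 : ℝ, 0 ≤ K0 ∧ 0 < s0 ∧ ∀ ε > 0, ∀ ϑ > 0, ε * K0 < ϑ →
      ∀ δ : ℝ, (loc → (ε + ϑ) * K0 < -δ) → ∀ T : ℝ,
      (ε + |δ| + ϑ) * K0 < T → ∀ s : ℝ, s0 ≤ s →
      Φ (ph ε) ∅ (lm (N := N) s) (av v) (yTH v θ T δ ϑ)
        (k * Polynomial.aeval (∑ j, X j : MvPolynomial (Fin r) ℂ) p) = 0 := by
  classical
  obtain ⟨M, Cs, q, Cs0, q0, hc, hc0, hrel⟩ := hR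
  obtain ⟨cf, hcf⟩ := DD_sum (r := r) M
  set KK := Fintype.piFinset (fun _ : Fin r => Finset.range (M+1)) with hKK
  set K1 : ℝ := ∑ c ∈ Cs, (∑ j, |(c j : ℝ)| + ∑ i, |∑ j, (c j : ℝ) * (v j i : ℝ)| +
      |∑ j, (c j : ℝ) * θ j|) with hK1
  set K2 : ℝ := ∑ c ∈ Cs0, (∑ j, |(c j : ℝ)| + |∑ j, (c j : ℝ) * θ j|) with hK2
  set K3 : ℝ := ∑ c ∈ Cs0, |∑ j, (c j : ℝ) * θ j|⁻¹ * ∑ j, |(c j : ℝ)| with hK3
  have hK1' : 0 ≤ K1 := by positivity
  have hK2' : 0 ≤ K2 := by positivity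
  have hK3' : 0 ≤ K3 := by positivity
  refine ⟨K1 + K2 + K3, (∑ κ ∈ KK, (Lam v κ : ℝ)) + 1, by positivity, by positivity,
    fun ε hε ϑ hϑ hεϑ δ hδ T hT s hs => ?_⟩
  have hT1 : (ε + |δ| + ϑ) * K1 < T := by
    refine lt_of_le_of_lt (mul_le_mul_of_nonneg_left ?_ (by positivity)) hT
    linarith
  have hδ1 : loc → (ε + ϑ) * K2 < -δ := by
    intro hl
    refine lt_of_le_of_lt (mul_le_mul_of_nonneg_left ?_ (by positivity)) (hδ hl)
    linarith
  have hεϑ1 : ε * K3 < ϑ := by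
    refine lt_of_le_of_lt (mul_le_mul_of_nonneg_left ?_ hε.le) hεϑ
    linarith
  have hzero : ∀ κ ∈ KK, HH v ε κ s (yTH v θ T δ ϑ) ∅
      ((k * Polynomial.aeval (∑ j, X j : MvPolynomial (Fin r) ℂ) p) * ∏ j, dm M j) = 0 ∧
      Gd v ε κ ∅ ((k * Polynomial.aeval (∑ j, X j : MvPolynomial (Fin r) ℂ) p) * ∏ j, dm M j) ∧
      (Lam v κ : ℝ) + 1 ≤ s := by
    intro κ hκ
    have hκM : ∀ j, κ j ≤ M := fun j => by
      have := (Fintype.mem_piFinset.1 hκ) j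
      rw [Finset.mem_range] at this
      omega
    have hs' : (Lam v κ : ℝ) + 1 ≤ s := by
      refine le_trans ?_ hs
      have := Finset.single_le_sum (f := fun κ : Fin r → ℕ => (Lam v κ : ℝ))
        (fun _ _ => Nat.cast_nonneg _) hκ
      linarith
    have hGd : Gd v ε κ ∅
        ((k * Polynomial.aeval (∑ j, X j : MvPolynomial (Fin r) ℂ) p) * ∏ j, dm M j) := by
      intro i _ hi
      have h1 : ∃ j, 0 < κ j * v j i := by
        by_contra hcon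
        push Not at hcon
        have : ell v κ i = 0 := Finset.sum_eq_zero fun j _ => Nat.le_zero.1 (hcon j)
        omega
      obtain ⟨j, hj⟩ := h1
      have hj1 : 0 < κ j := Nat.pos_of_mul_pos_right hj
      have hj2 : 0 < v j i := Nat.pos_of_mul_pos_left hj
      refine (goodDir_lin hε (κ := κ) j hj2).of_dvd ?_
      refine Dvd.dvd.mul_left ?_ _
      exact (dm_dvd M j (κ j) hj1 (hκM j)).trans (Finset.dvd_prod_of_mem _ (Finset.mem_univ j))
    refine ⟨?_, hGd, hs'⟩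
    set L : List (Fin N) := (Finset.univ.filter fun i => 2 ≤ ell v κ i).toList with hL
    have hLnd : L.Nodup := Finset.nodup_toList _
    have hLell : ∀ i ∈ L, ell v κ i ≠ 1 := fun i hi => by
      have : 2 ≤ ell v κ i := by simpa [hL] using hi
      omega
    have hkgood : ∀ i, i ∉ L → 0 < ell v κ i → GoodDir v ε κ i k := by
      intro i hi h
      have h1 : ell v κ i = 1 := by
        have : ¬ 2 ≤ ell v κ i := fun h' => hi (by simp [hL, h'])
        omega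
      have h2 := hk κ i h1
      rw [← Submodule.mem_toAddSubmonoid, ] at h2
      refine Submodule.span_induction (p := fun x _ => GoodDir v ε κ i x) ?_ ?_ ?_ ?_
        (by simpa [Ideal.span] using h2)
      · rintro x ⟨j, hj, rfl⟩
        exact goodDir_lin hε j hj
      · exact GoodDir.zero
      · intro x y _ _ hx hy
        exact hx.add hy
      · intro a x _ hx
        exact hx.mul_left a
    rw [← FF_eq v ε hε κ s hs' _ L ∅ _ (by simp) hLnd hLell hGd]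
    set F : (Fin r → ℤ) ⊕ (Fin r → ℤ) → MvPolynomial (Fin r) ℂ := Sum.elim
      (fun c => (∏ i ∈ Bc v c, el v i) *
          ((k * q c) * ∏ j, (if c j < 0 then X j * dm M j else 1)))
      (fun c => (k * q0 c) * ∏ j, (if c j < 0 then X j * dm M j else 1)) with hF
    have h3 : (k * Polynomial.aeval (∑ j, X j : MvPolynomial (Fin r) ℂ) p) * ∏ j, dm M j =
        ∑ x ∈ Cs.disjSum Cs0, F x := by
      rw [mul_assoc, hrel, Finset.sum_disjSum, mul_add, Finset.mul_sum, Finset.mul_sum]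
      congr 1
      · exact Finset.sum_congr rfl fun c _ => by rw [hF, Sum.elim_inl]; ring
      · exact Finset.sum_congr rfl fun c _ => by rw [hF, Sum.elim_inr]; ring
    rw [h3, FF_sum v ε hε κ s hs', Finset.sum_disjSum]
    · rw [Finset.sum_eq_zero, Finset.sum_eq_zero, add_zero]
      · intro c hcc
        rw [hF, Sum.elim_inr]
        rw [mul_assoc]
        rw [mul_comm (q0 c), ← mul_assoc, mul_comm _ (q0 c)]
        obtain ⟨h1, h2, h3⟩ := hc0 c hcc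
        have h4 := FF_kill v ε κ s (yTH v θ T δ ϑ)
          (∏ j, (if c j < 0 then X j * dm M j else 1)) ∅
          (fun S q' _ => by
            rcases h3 with ⟨h5, h6⟩ | ⟨hl, h5⟩
            · refine killedb v θ ε hε κ M hκM s T δ ϑ hϑ c h1 h5 ?_ S q'
              have h7 := Finset.single_le_sum
                (f := fun c : Fin r → ℤ => |∑ j, (c j : ℝ) * θ j|⁻¹ * ∑ j, |(c j : ℝ)|)
                (fun c _ => by positivity) hcc
              rw [abs_of_pos h6] at h7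
              have h8 : ε * ((∑ j, (c j : ℝ) * θ j)⁻¹ * ∑ j, |(c j : ℝ)|) < ϑ :=
                lt_of_le_of_lt (mul_le_mul_of_nonneg_left h7 hε.le) hεϑ1
              have h9 := mul_lt_mul_of_pos_left h8 h6
              have h10 : (∑ j, (c j : ℝ) * θ j) * (ε * ((∑ j, (c j : ℝ) * θ j)⁻¹ *
                  ∑ j, |(c j : ℝ)|)) = ε * ∑ j, |(c j : ℝ)| := by
                have := h6.ne'
                field_simp
              rw [h10] at h9
              linarith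
            · refine killeda v θ ε hε κ M hκM s T δ ϑ hϑ c h1 h2 h5 ?_ S q'
              refine lt_of_le_of_lt ?_ (hδ1 hl)
              refine mul_le_mul_of_nonneg_left ?_ (by positivity)
              exact Finset.single_le_sum (f := fun c : Fin r → ℤ =>
                (∑ j, |(c j : ℝ)| + |∑ j, (c j : ℝ) * θ j|)) (fun c _ => by positivity) hcc)
          L ∅ (q0 c * k) subset_rfl
        rwa [mul_assoc] at h4
      · intro c hcc
        rw [hF, Sum.elim_inl]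
        have hH : Hyp v ε κ L ∅ ((k * q c) * ∏ j, (if c j < 0 then X j * dm M j else 1)) :=
          fun i _ h1 h2 => ((hkgood i h1 h2).mul_right _).mul_right _
        obtain ⟨L', hL'⟩ := FF_steps v ε hε κ s hs' (yTH v θ T δ ϑ) (Bc v c) L ∅ _
          (Finset.disjoint_empty_right _) hLnd hLell hH
        rw [hL', Finset.union_empty]
        refine FF_kill v ε κ s _ _ (Bc v c) (fun S q' hS => ?_) L' _ _ subset_rfl
        refine killed1 v θ ε hε κ M hκM s T δ ϑ hϑ c (hc c hcc) (lt_of_le_of_lt ?_ hT1) S q' hS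
        refine mul_le_mul_of_nonneg_left ?_ (by positivity)
        exact Finset.single_le_sum (f := fun c : Fin r → ℤ =>
          (∑ j, |(c j : ℝ)| + ∑ i, |∑ j, (c j : ℝ) * (v j i : ℝ)| + |∑ j, (c j : ℝ) * θ j|))
          (fun c _ => by positivity) hcc
    · rintro (c | c) _ i _ h1 h2
      · exact (((hkgood i h1 h2).mul_right _).mul_right _).mul_left _
      · exact ((hkgood i h1 h2).mul_right _).mul_right _
  have hfin : Φ (ph ε) ∅ (lm (N := N) s) (av v) (yTH v θ T δ ϑ)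
        (k * Polynomial.aeval (∑ j, X j : MvPolynomial (Fin r) ℂ) p) =
      ∑ κ ∈ KK, (∏ j, cf (κ j)) * HH v ε κ s (yTH v θ T δ ϑ) ∅
        ((k * Polynomial.aeval (∑ j, X j : MvPolynomial (Fin r) ℂ) p) * ∏ j, dm M j) := by
    unfold Φ HH
    simp only [← integral_const_mul]
    rw [Finset.map_empty, ← integral_finsetSum]
    · refine integral_congr_ae (Eventually.of_forall fun x => ?_)
      simp only
      rw [← hcf ε hε, Finset.mul_sum]
      exact Finset.sum_congr rfl fun κ _ => by ring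
    · intro κ hκ
      have := HH_integrable v ε hε κ s (hzero κ hκ).2.2 (yTH v θ T δ ϑ) ∅ _ (hzero κ hκ).2.1
      rw [Finset.map_empty] at this
      exact this.const_mul _
  rw [hfin]
  exact Finset.sum_eq_zero fun κ hκ => by rw [(hzero κ hκ).1, mul_zero]

end Pool.Agent.W425.SG
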