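import Pool.Agent.W425.SL.Defs

set_option autoImplicit false

/-! Polynomials with arbitrary support and very general coefficients: definitions and statements
of the parts. -/

namespace Pool.Agent.W425.SG

open MvPolynomial Pool.Agent.H628R4.TZ Pool.Agent.H628R4.TP Pool.Agent.W425.SM Pool.Agent.W425.SL
  MeasureTheory Filter Topology

/-- The exponents `v_j`, `j ∈ J`, are affinely independent. -/
def IndJ {r N : ℕ} (v : Fin r → Fin N → ℕ) (J : Finset (Fin r)) : Prop :=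
  AffineIndependent ℚ (fun j : J => (fun i => (v j i : ℚ) : Fin N → ℚ))

/-- `v_l` is the affine combination of the `v_j`, `j ∈ J`, with the coefficients `c_j`. -/
def Comb {r N : ℕ} (v : Fin r → Fin N → ℕ) (J : Finset (Fin r)) (l : Fin r) (c : Fin r → ℚ) :
    Prop :=
  (∀ j, j ∉ J → c j = 0) ∧ ∑ j, c j = 1 ∧ ∀ i, ∑ j, c j * (v j i : ℚ) = (v l i : ℚ)

/-- The simplex with vertices `v_j`, `j ∈ J`, belongs to the regular triangulation, given by the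
heights `θ`, of the configuration of those `v_l` which lie in its affine span: the other `v_l`
are lifted strictly below the affine span of the lifted simplex. -/
def Adm {r N : ℕ} (v : Fin r → Fin N → ℕ) (θ : Fin r → ℝ) (J : Finset (Fin r)) : Prop :=
  ∀ l, l ∉ J → ∀ c : Fin r → ℚ, Comb v J l c → θ l < ∑ j, (c j : ℝ) * θ j

/-! ### The zeta functions -/

open Classical in
/-- The normalised lattice volume of the convex hull of the `v_j`, `j ∈ minSet v σ`, in the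
expected dimension `N - σ.card` (it is `0` if the dimension is smaller): the sum of the
normalised volumes of the simplices of the regular triangulation given by the heights `θ`. -/
noncomputable def nvol {r N : ℕ} (v : Fin r → Fin N → ℕ) (θ : Fin r → ℝ)
    (σ : Finset (Fin N → ℕ)) : ℕ :=
  ∑ J ∈ (minSet v σ).powerset.filter (fun J => σ.card + J.card = N + 1 ∧ Adm v θ J), idx v J

/-- The Euler characteristic of the intersection of the strict transform of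
`{∑_j a_j x ^ (v j) = 0}` with the torus orbit of the cone `σ` (Kouchnirenko). -/
noncomputable def chiG {r N : ℕ} (v : Fin r → Fin N → ℕ) (θ : Fin r → ℝ)
    (σ : Finset (Fin N → ℕ)) : ℤ :=
  if σ.card < N then (-1) ^ (N + 1 - σ.card) * (nvol v θ σ : ℤ) else 0

/-- The topological zeta function with the cones satisfying `Inc α`. -/
noncomputable def topG {r N : ℕ} (v : Fin r → Fin N → ℕ) (θ : Fin r → ℝ) (R : SmoothFan N)
    (α : ℝ) : RatFunc ℂ :=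
  open Classical in
  ∑ σ ∈ R.cones.filter (Inc α), (((chiO σ - chiG v θ σ : ℤ) : RatFunc ℂ) +
      ((chiG v θ σ : ℤ) : RatFunc ℂ) * (RatFunc.X + 1)⁻¹) *
    ∏ ρ ∈ σ, ((ordAlong v ρ : RatFunc ℂ) * RatFunc.X + ((∑ l, ρ l : ℕ) : RatFunc ℂ))⁻¹

/-! ### The relation -/

/-- The algebraic relation, with the heights `θ`; `loc` is true in the local case. -/
def RelT {r N : ℕ} (v : Fin r → Fin N → ℕ) (θ : Fin r → ℝ) (loc : Prop) (p : Polynomial ℂ) :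
    Prop :=
  ∃ (M : ℕ) (Cs : Finset (Fin r → ℤ)) (q : (Fin r → ℤ) → MvPolynomial (Fin r) ℂ)
    (Cs0 : Finset (Fin r → ℤ)) (q0 : (Fin r → ℤ) → MvPolynomial (Fin r) ℂ),
    (∀ c ∈ Cs, ∑ j, c j = 1) ∧
    (∀ c ∈ Cs0, ∑ j, c j = 0 ∧ (∀ i, ∑ j, c j * (v j i : ℤ) ≤ 0) ∧
      (((∀ i, ∑ j, c j * (v j i : ℤ) = 0) ∧ 0 < ∑ j, (c j : ℝ) * θ j) ∨
        (loc ∧ ∃ i, ∑ j, c j * (v j i : ℤ) < 0))) ∧
    Polynomial.aeval (∑ j, X j : MvPolynomial (Fin r) ℂ) p * ∏ j, dm M j =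
      ∑ c ∈ Cs, (∏ i ∈ Bc v c, el v i) * ((∏ j, if c j < 0 then X j * dm M j else 1) * q c) +
      ∑ c ∈ Cs0, (∏ j, if c j < 0 then X j * dm M j else 1) * q0 c

/-- The functional equation with a polynomial unit at the origin, which is `1` if `loc` is
false. -/
def UnitEq {N : ℕ} (loc : Prop) (f : MvPolynomial (Fin N) ℂ) (b : Polynomial ℂ) : Prop :=
  ∃ (a : MvPolynomial (Fin N) ℂ) (P : ℕ →₀ weylS (Fin N)), constantCoeff a = 1 ∧ (¬ loc → a = 1) ∧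
    ∀ s : ℕ, C (b.eval (s : ℂ)) * a * f ^ s =
    P.sum fun m Q => ((s : ℂ) ^ m) • (Q : Module.End ℂ (MvPolynomial (Fin N) ℂ)) (f ^ (s + 1))

/-- The generic polynomial `∑_j y_j x ^ (v j)` with coefficients in `ℚ[y]`. -/
noncomputable def gen {r N : ℕ} (v : Fin r → Fin N → ℕ) :
    MvPolynomial (Fin N) (MvPolynomial (Fin r) ℚ) :=
  ∑ j, C (X j) * ∏ i, X i ^ v j i

/-- The functional equation over `ℚ[y]`, coefficient by coefficient. The sum over `δ` is over the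
shifts by which the differential operator lowers the exponents. -/
def GenEq {r N : ℕ} (loc : Prop) (v : Fin r → Fin N → ℕ) (b : Polynomial ℚ) : Prop :=
  ∃ (A : MvPolynomial (Fin N) (MvPolynomial (Fin r) ℚ)) (D : Finset (Fin N → ℤ)) (T : Finset ℕ)
    (Q : ℕ → (Fin N → ℤ) → MvPolynomial (Fin N) (MvPolynomial (Fin r) ℚ)),
    coeff 0 A ≠ 0 ∧ (¬ loc → ∀ γ, γ ≠ 0 → coeff γ A = 0) ∧
    ∀ (s : ℕ) (e : Fin N →₀ ℕ),
      C (b.eval (s : ℚ)) * coeff e (A * gen v ^ s) =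
        ∑ m ∈ T, C ((s : ℚ) ^ m) * ∑ δ ∈ D, if ∀ i, 0 ≤ (e i : ℤ) + δ i then
          eval (fun i => C ((((e i : ℤ) + δ i : ℤ)) : ℚ)) (Q m δ) *
          C (∏ i, ((((e i : ℤ) + δ i).toNat.descFactorial (δ i).toNat : ℕ) : ℚ)) *
          coeff (Finsupp.equivFunOnFinite.symm fun i => ((e i : ℤ) + δ i).toNat)
            (gen v ^ (s + 1)) else 0

/-- Part G1: descent from `ℂ` to `ℚ[y]`. -/
def TaskG1 : Prop := ∀ {r N : ℕ} (loc : Prop) (v : Fin r → Fin N → ℕ) (a : Fin r → ℂ)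
  (b : Polynomial ℚ), AlgebraicIndependent ℚ a →
  UnitEq loc (sparse v a) (b.map (algebraMap ℚ ℂ)) → GenEq loc v b

/-- Part G2: comparison of the coefficients of `x ^ (∑ u_j v_j) y ^ (u + μ)`. -/
def TaskG2 : Prop := ∀ {r N : ℕ} (loc : Prop) (v : Fin r → Fin N → ℕ) (p : Polynomial ℚ)
  (θ : Fin r → ℝ), LinearIndependent ℚ θ → GenEq loc v ((Polynomial.X + 1) * p) →
  RelT v θ loc (p.map (algebraMap ℚ ℂ))

/-! ### The limits -/

/-- the translation: `-K δ_m - α δ_m ∑_i v_{j,i} - δ_m ^ 2 θ_j` -/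
noncomputable def yzH {r N : ℕ} (v : Fin r → Fin N → ℕ) (θ : Fin r → ℝ) (K α : ℝ) (m : ℕ)
    (j : Fin r) : ℝ :=
  -(K * dl m) - α * dl m * ∑ i, (v j i : ℝ) - dl m ^ 2 * θ j

/-- The integrand for `J`. -/
noncomputable def integH {r N : ℕ} (v : Fin r → Fin N → ℕ) (θ : Fin r → ℝ) (K α s : ℝ)
    (J : Finset (Fin r)) (m : ℕ) (x : Fin (N+1) → ℝ) : ℂ :=
  wt (lm (N := N) s) x * ∏ j, (((if j ∈ J then -ph (dl m ^ 4) 1 (ymap v x j + yzH v θ K α m j)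
    else ph (dl m ^ 4) 0 (ymap v x j + yzH v θ K α m j) : ℝ)) : ℂ)

/-- the limit integrand -/
noncomputable def limGH {r N : ℕ} (v : Fin r → Fin N → ℕ) (θ : Fin r → ℝ) (α s : ℝ)
    (J : Finset (Fin r)) (x : Fin (N+1) → ℝ) : ℂ :=
  open Classical in
  if 0 < x 0 ∧ (∀ i : Fin N, 0 < x i.succ ∨ (0 < α ∧ x i.succ = 0)) ∧
    (∀ l, (∀ c, ¬ Comb v J l c) → 0 < ymap v x l) ∧ Adm v θ J
  then wt (lm (N := N) s) x else 0

/-- the limit for `J` -/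
noncomputable def limJH {r N : ℕ} (v : Fin r → Fin N → ℕ) (R : SmoothFan N) (θ : Fin r → ℝ)
    (α s : ℝ) (J : Finset (Fin r)) : ℂ :=
  open Classical in
  ∑ σ ∈ R.cones, if J ⊆ minSet v σ ∧ σ.card + J.card = N + 1 ∧ Inc α σ ∧
      (∃ ρ ∈ σ, ordAlong v ρ ≠ 0) ∧ Adm v θ J then
    (idx v J : ℂ)⁻¹ * ∏ ρ ∈ σ, ((ordAlong v ρ : ℂ) * s + ((∑ l, ρ l : ℕ) : ℂ))⁻¹ else 0

/-- Part C1: existence of adapted data, and the lattice index. -/
def TaskC1 : Prop := ∀ {r N : ℕ} (v : Fin r → Fin N → ℕ) (R : SmoothFan N) (J : Finset (Fin r)),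
  IndJ v J → J.Nonempty → ∃ (d : ℕ) (Θ : ((J → ℝ) × (Fin d → ℝ)) ≃ₗ[ℝ] (Fin (N+1) → ℝ)) (κ : ℝ),
    Adapt v J d Θ κ ∧ ∀ σ ∈ R.cones, J ⊆ minSet v σ → σ.card + J.card = N + 1 →
      ∀ F : (Fin (N+1) → ℝ) → ℂ,
        (κ : ℂ) * (idx v J : ℂ) * ∫ a in reg v Θ σ, F (Θ (0, a)) =
          ∫ c in {c : σ → ℝ | ∀ ρ, 0 < c ρ}, F (∑ ρ : σ, c ρ • rhoHat v (ρ : Fin N → ℕ))

/-- Part C2: the limit of the integrals. -/
def TaskC2 : Prop := ∀ {r N : ℕ} (v : Fin r → Fin N → ℕ) (θ : Fin r → ℝ), LinearIndependent ℚ θ →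
  ∀ (K α s : ℝ), 0 < K → α ≠ 0 → 0 < s → ∀ (J : Finset (Fin r)), IndJ v J → J.Nonempty →
  ∀ (d : ℕ) (Θ : ((J → ℝ) × (Fin d → ℝ)) ≃ₗ[ℝ] (Fin (N+1) → ℝ)) (κ : ℝ), Adapt v J d Θ κ →
  Tendsto (fun m : ℕ => ∫ x, integH v θ K α s J m x ∂(Measure.pi (ms (∅ : Finset (Fin (N+1))))))
    atTop (𝓝 ((κ : ℂ) * ∫ a, limGH v θ α s J (Θ (0, a))))

/-- Part C3: the value of the limit. -/
def TaskC3 : Prop := ∀ {r N : ℕ} [NeZero r] (v : Fin r → Fin N → ℕ) (R : SmoothFan N),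
  Principal v R → ∀ (θ : Fin r → ℝ) (α s : ℝ), α ≠ 0 → 0 < s → ∀ (J : Finset (Fin r)), IndJ v J →
  J.Nonempty → ∀ (d : ℕ)
  (Θ : ((J → ℝ) × (Fin d → ℝ)) ≃ₗ[ℝ] (Fin (N+1) → ℝ)) (κ : ℝ), Adapt v J d Θ κ →
  (∀ σ ∈ R.cones, J ⊆ minSet v σ → σ.card + J.card = N + 1 →
      ∀ F : (Fin (N+1) → ℝ) → ℂ,
        (κ : ℂ) * (idx v J : ℂ) * ∫ a in reg v Θ σ, F (Θ (0, a)) =
          ∫ c in {c : σ → ℝ | ∀ ρ, 0 < c ρ}, F (∑ ρ : σ, c ρ • rhoHat v (ρ : Fin N → ℕ))) →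
  idx v J ≠ 0 →
  (κ : ℂ) * ∫ a, limGH v θ α s J (Θ (0, a)) = limJH v R θ α s J

/-- Part C4: the index. -/
def TaskC4 : Prop := ∀ {r N : ℕ} (v : Fin r → Fin N → ℕ) (J : Finset (Fin r)),
  (idx v J ≠ 0 ↔ IndJ v J) ∧ (J.card = 1 → idx v J = 1) ∧ (J.card = 0 → idx v J = 1)

end Pool.Agent.W425.SG
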