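import Pool.Agent.W425.SG.Fin
import Pool.Agent.W425.SM.Final

set_option autoImplicit false

namespace Pool.Agent.W425.SG

open MvPolynomial Pool.Agent.H628R4.TZ Pool.Agent.H628R4.TP MeasureTheory Set Filter Topology
open Pool.Agent.W425.SM hiding Φ_XJ Φ_kerP yz_tendsto bdry_lim ker_lim Zt

variable {r N : ℕ}

/-- **`p(s) Zt(s)` is a polynomial.** -/
theorem pZtT (v : Fin r → Fin N → ℕ) (θ : Fin r → ℝ) (loc : Prop) (R : SmoothFan N)
    (hv0 : ∀ j, v j ≠ 0) (hidx : idx v ∅ = 1) (hidx1 : ∀ J, J.card = 1 → idx v J = 1)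
    (α : ℝ) (hα : loc → α < 0) (p : Polynomial ℂ) (hR : RelT v θ loc p)
    (hk : ∀ (κ : Fin r → ℕ) (i : Fin N), ∑ j, κ j * v j i = 1 →
      kerP v ∈ Ideal.span {p : MvPolynomial (Fin r) ℂ | ∃ j, 0 < v j i ∧ p = X j + C ((κ j : ℕ) : ℂ)})
    (hC : ∀ K : ℝ, 0 < K → ∀ s : ℝ, 0 < s → ∀ J : Finset (Fin r), J.Nonempty → idx v J ≠ 0 →
      Tendsto (fun m : ℕ => ∫ x, integH v θ K α s J m x
        ∂(Measure.pi (ms (∅ : Finset (Fin (N+1)))))) atTop (𝓝 (limJH v R θ α s J))) :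
    ∃ (Q : Polynomial ℂ) (s0 : ℝ), 0 < s0 ∧ ∀ s : ℝ, s0 ≤ s →
      p.eval (s : ℂ) * Zt v R θ α s = Q.eval (s : ℂ) := by
  obtain ⟨K0, s0, hK0, hs0, hkill⟩ := killsT v θ loc p hR (kerP v) hk
  set K : ℝ := (2 + |α|) * K0 + 1 with hK
  have hKpos : 0 < K := by positivity
  have hev : ∀ᶠ m in atTop, dl m ^ 2 * K0 < 1 ∧ (loc → (dl m ^ 3 + dl m) * K0 < -α) := by
    have h1 : Tendsto (fun m => dl m ^ 2 * K0) atTop (𝓝 (0 ^ 2 * K0)) :=
      (dl_tendsto.pow 2).mul_const K0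
    have h2 : Tendsto (fun m => (dl m ^ 3 + dl m) * K0) atTop (𝓝 ((0 ^ 3 + 0) * K0)) :=
      ((dl_tendsto.pow 3).add dl_tendsto).mul_const K0
    have h3 : (0:ℝ) ^ 2 * K0 = 0 := by ring
    have h4 : ((0:ℝ) ^ 3 + 0) * K0 = 0 := by ring
    rw [h3] at h1
    rw [h4] at h2
    have h5 := h1.eventually (gt_mem_nhds one_pos)
    by_cases hl : loc
    · filter_upwards [h5, h2.eventually (gt_mem_nhds (show (0:ℝ) < -α by linarith [hα hl]))]
        with m hm hm'
      exact ⟨hm, fun _ => hm'⟩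
    · filter_upwards [h5] with m hm
      exact ⟨hm, fun h => absurd h hl⟩
  obtain ⟨Q, hQ⟩ := limit_poly'
    (fun m => PeK v (yzH v θ K α m) (dl m ^ 4) (kerP v) p) p.natDegree
    (fun m => PeK_natDegree _ _ _ _ _) (fun s => p.eval (s : ℂ) * Zt v R θ α s) s0 (by
      intro s hs
      have hs' : 0 < s := hs0.trans_le hs
      have h1 := (ker_lim v θ R hv0 hidx K α s hs' hidx1
        (fun J hJ hJ' => hC K hKpos s hs' J hJ hJ')).const_mul (p.eval (s : ℂ))
      refine h1.congr' ?_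
      filter_upwards [hev] with m hm
      refine PeK_eval v _ _ _ p s (pow_pos (dl_pos m) 4) hs' ?_
      rw [yzH_eq]
      have hd := dl_pos m
      have hd1 := dl_le m
      have hd2 : 0 < dl m ^ 2 := pow_pos hd 2
      have hd2' : dl m ^ 2 ≤ dl m := by nlinarith
      have hd4' : dl m ^ 4 ≤ dl m := by
        have : dl m ^ 4 = dl m ^ 2 * dl m ^ 2 := by ring
        rw [this]
        nlinarith
      refine hkill _ (pow_pos hd 4) _ hd2 ?_ _ ?_ _ ?_ s hs
      · have h5 : dl m ^ 4 * K0 = dl m ^ 2 * (dl m ^ 2 * K0) := by ring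
        rw [h5]
        nlinarith [hm.1]
      · intro hl
        have h5 : (dl m ^ 4 + dl m ^ 2) * K0 = dl m * ((dl m ^ 3 + dl m) * K0) := by ring
        rw [h5]
        nlinarith [hm.2 hl]
      · rw [abs_mul, abs_of_pos hd, hK]
        have h3 : (dl m ^ 4 + |α| * dl m + dl m ^ 2) * K0 ≤ (dl m + |α| * dl m + dl m) * K0 :=
          mul_le_mul_of_nonneg_right (by linarith) hK0
        nlinarith)
  exact ⟨Q, s0, hs0, fun s hs => hQ s hs⟩


lemma card_le (R : SmoothFan N) (σ : Finset (Fin N → ℕ)) (hσ : σ ∈ R.cones) : σ.card ≤ N := by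
  classical
  obtain ⟨B, hB, hrow⟩ := R.smooth σ hσ
  choose f hf using fun ρ : σ => hrow ρ ρ.2
  have hinj : Function.Injective f := by
    intro ρ ρ' h
    apply Subtype.ext
    funext l
    have h1 := hf ρ l
    have h2 := hf ρ' l
    rw [h] at h1
    rw [h1] at h2
    exact_mod_cast h2
  have := Fintype.card_le_of_injective f hinj
  simpa using this

lemma adm_singleton (v : Fin r → Fin N → ℕ) (hv : Function.Injective v) (θ : Fin r → ℝ)
    (j : Fin r) : Adm v θ {j} := by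
  intro l hl c hc
  exfalso
  apply hl
  rw [Finset.mem_singleton]
  apply hv
  obtain ⟨h1, h2, h3⟩ := hc
  have hz : ∀ j', j' ≠ j → c j' = 0 := fun j' h => h1 j' (by simpa using h)
  have hcj : c j = 1 := by
    rw [← h2, Finset.sum_eq_single j (fun b _ hb => hz b hb)
      (fun h => absurd (Finset.mem_univ _) h)]
  funext i
  have h4 := h3 i
  rw [Finset.sum_eq_single j (fun b _ hb => by rw [hz b hb, zero_mul])
    (fun h => absurd (Finset.mem_univ _) h), hcj, one_mul] at h4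
  exact_mod_cast h4.symm

open Classical in
lemma sum_limJH_one [NeZero r] (v : Fin r → Fin N → ℕ) (hv : Function.Injective v)
    (R : SmoothFan N) (hR : Principal v R) (θ : Fin r → ℝ)
    (hidx : ∀ J, J.card = 1 → idx v J = 1) (α s : ℝ) :
    ∑ j : Fin r, limJH v R θ α s {j} = ∑ σ ∈ R.cones,
      if σ.card = N ∧ Inc α σ ∧ (∃ ρ ∈ σ, ordAlong v ρ ≠ 0) then wc v σ s else 0 := by
  unfold limJH
  rw [Finset.sum_comm]
  refine Finset.sum_congr rfl fun σ hσ => ?_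
  by_cases h1 : σ.card = N
  · obtain ⟨j0, hj0⟩ := Finset.card_eq_one.1 (full_minSet v hv R hR σ hσ h1)
    rw [Finset.sum_eq_single j0]
    · rw [hj0, hidx {j0} (Finset.card_singleton _), Finset.card_singleton, h1]
      simp [wc, adm_singleton v hv θ j0]
    · intro j _ hj
      rw [if_neg]
      rintro ⟨h2, _⟩
      rw [hj0, Finset.singleton_subset_iff, Finset.mem_singleton] at h2
      exact hj h2
    · intro h; exact absurd (Finset.mem_univ _) h
  · rw [if_neg (fun h => h1 h.1)]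
    refine Finset.sum_eq_zero fun j _ => if_neg ?_
    rintro ⟨_, h2, _⟩
    rw [Finset.card_singleton] at h2
    omega

/-- the signed volume -/
noncomputable def sv (v : Fin r → Fin N → ℕ) (θ : Fin r → ℝ) (σ : Finset (Fin N → ℕ)) : ℂ :=
  (-1) ^ (N + 1 - σ.card) * (nvol v θ σ : ℂ)

open Classical in
lemma sum_limJH_all (v : Fin r → Fin N → ℕ) (R : SmoothFan N)
    (θ : Fin r → ℝ) (α s : ℝ) :
    ∑ J ∈ (Finset.univ : Finset (Finset (Fin r))).filter (fun J => J.Nonempty),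
      (idx v J : ℂ) ^ 2 * ((-1) ^ J.card * limJH v R θ α s J) = ∑ σ ∈ R.cones,
      if Inc α σ ∧ (∃ ρ ∈ σ, ordAlong v ρ ≠ 0) then sv v θ σ * wc v σ s else 0 := by
  unfold limJH
  simp only [Finset.mul_sum]
  rw [Finset.sum_comm]
  refine Finset.sum_congr rfl fun σ hσ => ?_
  by_cases hE : Inc α σ ∧ (∃ ρ ∈ σ, ordAlong v ρ ≠ 0)
  swap
  · rw [if_neg hE]
    refine Finset.sum_eq_zero fun J _ => ?_
    rw [if_neg (fun h => hE ⟨h.2.2.1, h.2.2.2.1⟩)]
    simp
  rw [if_pos hE]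
  unfold sv nvol
  have hle := card_le R σ hσ
  push_cast
  rw [Finset.mul_sum, Finset.sum_mul]
  have h1 : ∀ J : Finset (Fin r), (idx v J : ℂ) ^ 2 * ((-1) ^ J.card *
      (if J ⊆ minSet v σ ∧ σ.card + J.card = N + 1 ∧ Inc α σ ∧
      (∃ ρ ∈ σ, ordAlong v ρ ≠ 0) ∧ Adm v θ J then
      (idx v J : ℂ)⁻¹ * ∏ ρ ∈ σ, ((ordAlong v ρ : ℂ) * s + ((∑ l, ρ l : ℕ) : ℂ))⁻¹ else 0)) =
      if J ⊆ minSet v σ ∧ (σ.card + J.card = N + 1 ∧ Adm v θ J) then
        (-1) ^ (N + 1 - σ.card) * (idx v J : ℂ) * wc v σ s else 0 := by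
    intro J
    by_cases hJ : J ⊆ minSet v σ ∧ (σ.card + J.card = N + 1 ∧ Adm v θ J)
    · rw [if_pos hJ, if_pos ⟨hJ.1, hJ.2.1, hE.1, hE.2, hJ.2.2⟩, wc]
      have h2 : N + 1 - σ.card = J.card := by omega
      rw [h2]
      have h3 : (idx v J : ℂ) ^ 2 * (idx v J : ℂ)⁻¹ = (idx v J : ℂ) := by
        by_cases h0 : (idx v J : ℂ) = 0
        · rw [h0]; simp
        · rw [pow_two, mul_assoc, mul_inv_cancel₀ h0, mul_one]
      calc _ = (-1 : ℂ) ^ J.card * ((idx v J : ℂ) ^ 2 * (idx v J : ℂ)⁻¹) *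
            ∏ ρ ∈ σ, ((ordAlong v ρ : ℂ) * s + ((∑ l, ρ l : ℕ) : ℂ))⁻¹ := by ring
        _ = _ := by rw [h3]
    · rw [if_neg hJ, if_neg (fun h => hJ ⟨h.1, h.2.1, h.2.2.2.2⟩)]
      simp
  simp only [Nat.cast_sum] at h1
  simp only [h1]
  rw [← Finset.sum_filter]
  refine Finset.sum_congr ?_ fun _ _ => rfl
  ext J
  simp only [Finset.mem_filter, Finset.mem_univ, true_and, Finset.mem_powerset]
  constructor
  · rintro ⟨_, h⟩; exact h
  · intro h
    refine ⟨Finset.card_pos.1 (by omega), h⟩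

lemma sv_full [NeZero r] (v : Fin r → Fin N → ℕ) (hv : Function.Injective v)
    (R : SmoothFan N) (hR : Principal v R) (θ : Fin r → ℝ)
    (hidx : ∀ J, J.card = 1 → idx v J = 1) (σ : Finset (Fin N → ℕ)) (hσ : σ ∈ R.cones)
    (hc : σ.card = N) : sv v θ σ = -1 := by
  classical
  obtain ⟨j0, hj0⟩ := Finset.card_eq_one.1 (full_minSet v hv R hR σ hσ hc)
  have h1 : nvol v θ σ = 1 := by
    unfold nvol
    rw [Finset.sum_eq_single {j0}]
    · exact hidx _ (Finset.card_singleton _)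
    · intro J hJ hne
      rw [Finset.mem_filter, Finset.mem_powerset, hj0] at hJ
      exfalso
      apply hne
      rcases Finset.subset_singleton_iff.1 hJ.1 with h | h
      · rw [h, Finset.card_empty] at hJ
        omega
      · exact h
    · intro h
      exfalso
      apply h
      rw [Finset.mem_filter, Finset.mem_powerset, hj0, Finset.card_singleton]
      exact ⟨subset_rfl, by omega, adm_singleton v hv θ j0⟩
  unfold sv
  rw [h1, hc]
  have : N + 1 - N = 1 := by omega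
  rw [this]
  simp

open Classical in
/-- the contribution of the cones with `ord ρ ≠ 0` for some ray -/
lemma s_ZtH [NeZero r] (v : Fin r → Fin N → ℕ) (hv : Function.Injective v)
    (R : SmoothFan N) (hR : Principal v R) (θ : Fin r → ℝ)
    (hidx1 : ∀ J, J.card = 1 → idx v J = 1) (α s : ℝ) (hs : 0 < s) :
    (s : ℂ) * Zt v R θ α s = 1 - ∑ σ ∈ R.cones.filter (Inc α),
      (if ∃ ρ ∈ σ, ordAlong v ρ ≠ 0 then ((s + 1) * ((chiO σ : ℤ) : ℂ) -
        s * ((chiG v θ σ : ℤ) : ℂ)) * wc v σ s else 0) := by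
  have hsC : (s : ℂ) ≠ 0 := by exact_mod_cast hs.ne'
  unfold Zt
  rw [mul_add, mul_div_cancel₀ _ hsC, sum_limJH_one v hv R hR θ hidx1, sum_limJH_all v R θ,
    Finset.mul_sum, Finset.sum_filter, sub_add, ← Finset.sum_sub_distrib]
  congr 1
  refine Finset.sum_congr rfl fun σ hσ => ?_
  by_cases hI : Inc α σ
  swap
  · rw [if_neg hI, if_neg (fun h => hI h.2.1), if_neg (fun h => hI h.1)]; simp
  by_cases hE : ∃ ρ ∈ σ, ordAlong v ρ ≠ 0
  swap
  · rw [if_pos hI, if_neg hE, if_neg (fun h => hE h.2.2), if_neg (fun h => hE h.2)]; simp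
  rw [if_pos hI, if_pos hE]
  have hle := card_le R σ hσ
  by_cases hc : σ.card = N
  · rw [if_pos ⟨hc, hI, hE⟩, if_pos ⟨hI, hE⟩, sv_full v hv R hR θ hidx1 σ hσ hc]
    unfold chiO chiG
    rw [if_pos hc, if_neg (by omega)]
    push_cast
    ring
  · rw [if_neg (fun h => hc h.1), if_pos ⟨hI, hE⟩]
    unfold chiO chiG sv
    rw [if_neg hc, if_pos (by omega)]
    push_cast
    ring

open Classical Polynomial in
/-- **Main theorem, from the polynomiality of `p(s) Zt(s)`.** -/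
theorem main_of [NeZero r] (v : Fin r → Fin N → ℕ) (θ : Fin r → ℝ) (hv : Function.Injective v)
    (hv0 : ∀ j, v j ≠ 0) (R : SmoothFan N) (hR : Principal v R)
    (hidx1 : ∀ J, J.card = 1 → idx v J = 1)
    (α : ℝ) (p : ℂ[X])
    (hZ : ∃ (Q : Polynomial ℂ) (s0 : ℝ), 0 < s0 ∧ ∀ s : ℝ, s0 ≤ s →
      p.eval (s : ℂ) * Zt v R θ α s = Q.eval (s : ℂ)) :
    ∃ P : ℂ[X], algebraMap ℂ[X] (RatFunc ℂ) ((Polynomial.X + 1) * p) * topG v θ R α =
      algebraMap ℂ[X] (RatFunc ℂ) P := by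
  obtain ⟨Q, s0, hs0, hQ⟩ := hZ
  -- values of the zeta function
  set F : ℝ → ℂ := fun s => ∑ σ ∈ R.cones.filter (Inc α),
    (((chiO σ - chiG v θ σ : ℤ) : ℂ) + ((chiG v θ σ : ℤ) : ℂ) * ((s : ℂ) + 1)⁻¹) * wc v σ s with hF
  have hRp : Rp (topG v θ R α) F := by
    unfold topG
    refine Rp.sum _ _ _ fun σ hσ => ?_
    refine ((Rp.const _).add ((Rp.const _).mul Rp.inv_X1)).mul ?_
    unfold wc
    refine Rp.prod _ _ _ fun ρ hρ => ?_
    exact Rp.inv_lin _ _ (ray_sum_pos R σ (Finset.mem_filter.1 hσ).1 ρ hρ)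
  set A : ℂ := ∑ σ ∈ R.cones.filter (Inc α), (if ∃ ρ ∈ σ, ordAlong v ρ ≠ 0 then 0 else
    ((chiG v θ σ : ℤ) : ℂ) * ∏ ρ ∈ σ, (((∑ l, ρ l : ℕ) : ℂ))⁻¹) with hA
  refine ⟨p * (1 - Polynomial.X * Polynomial.C A) - Polynomial.X * Q,
    hRp.final _ _ s0 hs0 fun s hs => ?_⟩
  have hs' : 0 < s := hs0.trans_le hs
  have hs1 : (s : ℂ) + 1 ≠ 0 := by
    have := lin_ne 1 1 one_pos s hs'
    simpa using this
  have h1 := hQ s hs
  have h2 := s_ZtH v hv R hR θ hidx1 α s hs'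
  have h3 : ((s : ℂ) + 1) * F s = (1 - (s : ℂ) * Zt v R θ α s) - s * A := by
    rw [h2, hF, hA, Finset.mul_sum, Finset.mul_sum, sub_sub_cancel, ← Finset.sum_sub_distrib]
    refine Finset.sum_congr rfl fun σ hσ => ?_
    have h4 : ((s : ℂ) + 1) * ((((chiO σ - chiG v θ σ : ℤ) : ℂ) +
        ((chiG v θ σ : ℤ) : ℂ) * ((s : ℂ) + 1)⁻¹) * wc v σ s) =
        ((s + 1) * ((chiO σ : ℤ) : ℂ) - s * ((chiG v θ σ : ℤ) : ℂ)) * wc v σ s := by
      push_cast
      field_simp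
      ring
    rw [h4]
    by_cases hE : ∃ ρ ∈ σ, ordAlong v ρ ≠ 0
    · rw [if_pos hE, if_pos hE, mul_zero, sub_zero]
    · rw [if_neg hE, if_neg hE]
      have hN : σ.card ≠ N := fun h => hE (full_ord v hv0 R hR σ (Finset.mem_filter.1 hσ).1 h)
      have h5 : wc v σ s = ∏ ρ ∈ σ, (((∑ l, ρ l : ℕ) : ℂ))⁻¹ := by
        unfold wc
        refine Finset.prod_congr rfl fun ρ hρ => ?_
        push Not at hE
        rw [hE ρ hρ]
        simp
      rw [h5, chiO, if_neg hN]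
      push_cast
      ring
  rw [Polynomial.eval_mul, Polynomial.eval_sub, Polynomial.eval_mul, Polynomial.eval_sub,
    Polynomial.eval_mul, Polynomial.eval_mul, Polynomial.eval_X, Polynomial.eval_C,
    Polynomial.eval_add, Polynomial.eval_X, Polynomial.eval_one, ← h1]
  linear_combination (p.eval (s : ℂ)) * h3



open Polynomial in
/-- The theorem, from the relation with heights and the parts. -/
theorem mainT_rel (hC1 : TaskC1) (hC2 : TaskC2) (hC3 : TaskC3) (hC4 : TaskC4) [NeZero r]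
    (v : Fin r → Fin N → ℕ) (hv : Function.Injective v) (hv0 : ∀ j, v j ≠ 0)
    (θ : Fin r → ℝ) (hθ : LinearIndependent ℚ θ) (loc : Prop) (R : SmoothFan N)
    (hR : Principal v R) (α : ℝ) (hα0 : α ≠ 0) (hα : loc → α < 0) (p : ℂ[X])
    (hp : RelT v θ loc p) :
    ∃ P : ℂ[X], algebraMap ℂ[X] (RatFunc ℂ) ((Polynomial.X + 1) * p) * topG v θ R α =
      algebraMap ℂ[X] (RatFunc ℂ) P := by
  have h1 : ∀ J, J.card = 1 → idx v J = 1 := fun J hJ => (hC4 v J).2.1 hJ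
  refine main_of v θ hv hv0 R hR h1 α p ?_
  refine pZtT v θ loc R hv0 ((hC4 v ∅).2.2 rfl) h1 α hα p hp
    (fun κ i h => Pool.Agent.W655.SM.taskK v κ i h) ?_
  intro K hK s hs J hJ hne
  have hI := (hC4 v J).1.1 hne
  obtain ⟨d, Θ, κ, hA, hL⟩ := hC1 v R J hI hJ
  rw [← hC3 v R hR θ α s hα0 hs J hI hJ d Θ κ hA hL hne]
  exact hC2 v θ hθ K α s hK hα0 hs J hI hJ d Θ κ hA

end Pool.Agent.W425.SG
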