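import Pool.Agent.W425.SG.Main
import Pool.Agent.W333.SG.C1
import Pool.Agent.W327.SG.C2
import Pool.Agent.W349.SG.C3
import Pool.Agent.W54.SG.C4
import Pool.Agent.W372.SG.G1
import Pool.Agent.W462.SG.G2
import Pool.Agent.W425.SL.Final

set_option autoImplicit false

namespace Pool.Agent.W425.SG

open MvPolynomial Pool.Agent.H628R4.TZ Pool.Agent.W425.SM

variable {r N : ℕ}

/-- A global functional equation is a local one. -/
lemma isLocal {f : MvPolynomial (Fin N) ℂ} {b : Polynomial ℂ}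
    (hb : Pool.Agent.H628R4.TP.IsBFunction f b) : SL.IsLocalBFunction f b := by
  classical
  obtain ⟨P, hP⟩ := hb
  refine ⟨P.support.card, fun k => (P.support.equivFin.symm k : ℕ), fun _ => 1,
    fun k => P (P.support.equivFin.symm k), fun s => ?_⟩
  have h1 := hP s
  have h2 : (b.eval (s : ℂ)) • (((f ^ s : MvPolynomial (Fin N) ℂ)) : MvPowerSeries (Fin N) ℂ) =
      ((C (b.eval (s : ℂ)) * f ^ s : MvPolynomial (Fin N) ℂ) : MvPowerSeries (Fin N) ℂ) := by
    rw [← MvPolynomial.smul_eq_C_mul, MvPolynomial.coe_smul]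
  rw [h2, h1, Finsupp.sum]
  rw [← Finset.sum_coe_sort P.support (fun m => ((s : ℂ) ^ m) •
    ((P m : Pool.Agent.H628R4.TP.weylS (Fin N)) : Module.End ℂ (MvPolynomial (Fin N) ℂ)) (f ^ (s + 1)))]
  rw [← Equiv.sum_comp P.support.equivFin.symm]
  rw [← MvPolynomial.coeToMvPowerSeries.ringHom_apply, map_sum]
  refine Finset.sum_congr rfl fun k _ => ?_
  rw [MvPolynomial.coeToMvPowerSeries.ringHom_apply, MvPolynomial.coe_smul, one_mul]

lemma sparse_coeff' {v : Fin r → Fin N → ℕ} (hv : Function.Injective v) (a : Fin r → ℂ)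
    (j : Fin r) : coeff (Finsupp.equivFunOnFinite.symm (v j)) (sparse v a) = a j := by
  classical
  unfold sparse
  rw [coeff_sum, Finset.sum_eq_single j]
  · have h1 : (C (a j) * ∏ i, X i ^ v j i : MvPolynomial (Fin N) ℂ) =
        monomial (Finsupp.equivFunOnFinite.symm (v j)) (a j) := by
      rw [monomial_eq, Finsupp.prod_fintype _ _ (by simp)]
      rfl
    rw [h1, coeff_monomial, if_pos rfl]
  · intro j' _ hj
    have h1 : (C (a j') * ∏ i, X i ^ v j' i : MvPolynomial (Fin N) ℂ) =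
        monomial (Finsupp.equivFunOnFinite.symm (v j')) (a j') := by
      rw [monomial_eq, Finsupp.prod_fintype _ _ (by simp)]
      rfl
    rw [h1, coeff_monomial, if_neg]
    intro h
    exact hj (hv (Finsupp.equivFunOnFinite.symm.injective h))
  · intro h; exact absurd (Finset.mem_univ _) h

lemma sparse_ne_zero' [NeZero r] {v : Fin r → Fin N → ℕ} (hv : Function.Injective v)
    (a : Fin r → ℂ) (ha : AlgebraicIndependent ℚ a) : sparse v a ≠ 0 := by
  intro h
  have h1 := sparse_coeff' hv a 0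
  rw [h, coeff_zero] at h1
  exact ha.ne_zero 0 h1.symm

/-- The global topological zeta function. -/
noncomputable def topZetaGen (v : Fin r → Fin N → ℕ) (θ : Fin r → ℝ) (R : SmoothFan N) :
    RatFunc ℂ :=
  ∑ σ ∈ R.cones, (((chiO σ - chiG v θ σ : ℤ) : RatFunc ℂ) +
      ((chiG v θ σ : ℤ) : RatFunc ℂ) * (RatFunc.X + 1)⁻¹) *
    ∏ ρ ∈ σ, ((ordAlong v ρ : RatFunc ℂ) * RatFunc.X + ((∑ l, ρ l : ℕ) : RatFunc ℂ))⁻¹

/-- The local topological zeta function at the origin: the cones whose relative interior is in the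
open orthant. -/
noncomputable def topZetaGenLocal (v : Fin r → Fin N → ℕ) (θ : Fin r → ℝ) (R : SmoothFan N) :
    RatFunc ℂ :=
  open Classical in
  ∑ σ ∈ R.cones.filter (fun σ => ∀ l, ∃ ρ ∈ σ, ρ l ≠ 0),
    (((chiO σ - chiG v θ σ : ℤ) : RatFunc ℂ) +
      ((chiG v θ σ : ℤ) : RatFunc ℂ) * (RatFunc.X + 1)⁻¹) *
    ∏ ρ ∈ σ, ((ordAlong v ρ : RatFunc ℂ) * RatFunc.X + ((∑ l, ρ l : ℕ) : RatFunc ℂ))⁻¹

lemma topG_one (v : Fin r → Fin N → ℕ) (θ : Fin r → ℝ) (R : SmoothFan N) :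
    topG v θ R 1 = topZetaGen v θ R := by
  classical
  unfold topG topZetaGen
  refine Finset.sum_congr ?_ fun _ _ => rfl
  refine Finset.filter_true_of_mem fun σ _ => ?_
  exact Or.inl one_pos

lemma topG_neg (v : Fin r → Fin N → ℕ) (θ : Fin r → ℝ) (R : SmoothFan N) :
    topG v θ R (-1) = topZetaGenLocal v θ R := by
  classical
  unfold topG topZetaGenLocal
  refine Finset.sum_congr ?_ fun _ _ => rfl
  refine Finset.filter_congr fun σ _ => ?_
  unfold Inc
  constructor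
  · rintro (h | h)
    · norm_num at h
    · exact h
  · exact Or.inr

open Polynomial in
lemma dvd_of {b : ℚ[X]} (h : (b.map (algebraMap ℚ ℂ)).eval (-1) = 0) :
    ∃ p : ℚ[X], b = (Polynomial.X + 1) * p := by
  have h1 : b.eval (-1) = 0 := by
    have h3 : (b.map (algebraMap ℚ ℂ)).eval ((algebraMap ℚ ℂ) (-1)) = 0 := by
      rw [← h, map_neg, map_one]
    rw [Polynomial.eval_map_apply] at h3
    exact (map_eq_zero (algebraMap ℚ ℂ)).1 h3
  obtain ⟨p, hp⟩ := Polynomial.dvd_iff_isRoot.2 (show b.IsRoot (-1) from h1)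
  refine ⟨p, ?_⟩
  rw [hp]
  congr 1
  simp

open Polynomial in
/-- From the functional equation with a unit to the theorem. -/
theorem final_of [NeZero r] (loc : Prop) (v : Fin r → Fin N → ℕ) (a : Fin r → ℂ)
    (hv : Function.Injective v) (hv0 : ∀ j, v j ≠ 0) (ha : AlgebraicIndependent ℚ a)
    (θ : Fin r → ℝ) (hθ : LinearIndependent ℚ θ) (R : SmoothFan N) (hR : Principal v R)
    (α : ℝ) (hα0 : α ≠ 0) (hα : loc → α < 0)
    (b : ℚ[X]) (h1 : (b.map (algebraMap ℚ ℂ)).eval (-1) = 0)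
    (h2 : UnitEq loc (sparse v a) (b.map (algebraMap ℚ ℂ))) :
    ∃ P : ℂ[X], algebraMap ℂ[X] (RatFunc ℂ) (b.map (algebraMap ℚ ℂ)) * topG v θ R α =
      algebraMap ℂ[X] (RatFunc ℂ) P := by
  obtain ⟨p, hp⟩ := dvd_of h1
  have h3 := Pool.Agent.W372.SG.taskG1 loc v a b ha h2
  rw [hp] at h3
  have h4 := Pool.Agent.W462.SG.taskG2 loc v p θ hθ h3
  have h5 := mainT_rel Pool.Agent.W333.SG.taskC1 Pool.Agent.W327.SG.taskC2
    Pool.Agent.W349.SG.taskC3 Pool.Agent.W54.SG.taskC4 v hv hv0 θ hθ loc R hR α hα0 hα _ h4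
  rw [hp]
  simpa [Polynomial.map_mul] using h5

open Polynomial in
/-- The global theorem. -/
theorem finalGlobal (hr : 1 ≤ r) (v : Fin r → Fin N → ℕ) (a : Fin r → ℂ)
    (hv : Function.Injective v) (hv0 : ∀ j, v j ≠ 0) (ha : AlgebraicIndependent ℚ a)
    (θ : Fin r → ℝ) (hθ : LinearIndependent ℚ θ) (R : SmoothFan N) (hR : Principal v R)
    (b : ℚ[X]) (hb : Pool.Agent.H628R4.TP.IsBFunction (sparse v a) (b.map (algebraMap ℚ ℂ))) :
    ∃ P : ℂ[X], algebraMap ℂ[X] (RatFunc ℂ) (b.map (algebraMap ℚ ℂ)) * topZetaGen v θ R =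
      algebraMap ℂ[X] (RatFunc ℂ) P := by
  have : NeZero r := ⟨by omega⟩
  rw [← topG_one]
  refine final_of False v a hv hv0 ha θ hθ R hR 1 one_ne_zero (fun h => h.elim) b
    (Pool.Agent.W368.SL.taskL1 (sparse v a) _ (sparse_ne_zero' hv a ha)
      (SL.sparse_const hv0 a) (isLocal hb)).1 ?_
  obtain ⟨P, hP⟩ := hb
  refine ⟨1, P, map_one _, fun _ => rfl, fun s => ?_⟩
  rw [mul_one]
  exact hP s

open Polynomial in
/-- The local theorem. -/
theorem finalLocal (hr : 1 ≤ r) (v : Fin r → Fin N → ℕ) (a : Fin r → ℂ)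
    (hv : Function.Injective v) (hv0 : ∀ j, v j ≠ 0) (ha : AlgebraicIndependent ℚ a)
    (θ : Fin r → ℝ) (hθ : LinearIndependent ℚ θ) (R : SmoothFan N) (hR : Principal v R)
    (b : ℚ[X])
    (hb : Pool.Agent.H628R4.TP.IsLocalBFunction (sparse v a) (b.map (algebraMap ℚ ℂ))) :
    ∃ P : ℂ[X], algebraMap ℂ[X] (RatFunc ℂ) (b.map (algebraMap ℚ ℂ)) * topZetaGenLocal v θ R =
      algebraMap ℂ[X] (RatFunc ℂ) P := by
  have : NeZero r := ⟨by omega⟩
  rw [← topG_neg]
  obtain ⟨h1, c, P, hc, hP⟩ := Pool.Agent.W368.SL.taskL1 (sparse v a) _ (sparse_ne_zero' hv a ha)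
    (SL.sparse_const hv0 a) (SL.toSL hb)
  exact final_of True v a hv hv0 ha θ hθ R hR (-1) (by norm_num) (fun _ => by norm_num) b h1
    ⟨c, P, hc, fun h => absurd trivial h, hP⟩

end Pool.Agent.W425.SG
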